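import Pool.Agent.V5helper1.FS.Stm

set_option autoImplicit false

open Cardinal Set

namespace Pool.Agent.V5helper3.FS

open Pool.Agent.V5helper1.FS

theorem wrec {ι β : Type} {r : ι → ι → Prop} (hr : WellFounded r) (Q : ι → β → Prop)
    (P : ∀ i, (∀ j, r j i → β) → β → Prop)
    (H : ∀ i (f : ∀ j, r j i → β), (∀ j hj, Q j (f j hj)) → ∃ b, Q i b ∧ P i f b) :
    ∃ g : ι → β, ∀ i, Q i (g i) ∧ P i (fun j _ => g j) (g i) := by
  classical
  let F : ∀ i, (∀ j, r j i → {b // Q j b}) → {b // Q i b} := fun i f =>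
    ⟨Classical.choose (H i (fun j hj => (f j hj).1) (fun j hj => (f j hj).2)),
      (Classical.choose_spec (H i (fun j hj => (f j hj).1) (fun j hj => (f j hj).2))).1⟩
  let g : ∀ i, {b // Q i b} := fun i => hr.fix F i
  refine ⟨fun i => (g i).1, fun i => ⟨(g i).2, ?_⟩⟩
  have h1 : g i = F i (fun j _ => g j) := hr.fix_eq F i
  have h2 := (Classical.choose_spec (H i (fun j _ => (g j).1) (fun j _ => (g j).2))).2
  show P i (fun j _ => (g j).1) (g i).1
  have h3 : (g i).1 = (F i (fun j _ => g j)).1 := by rw [h1]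
  rw [h3]
  exact h2

theorem aleph_ltn {a b : ℕ} (h : a < b) :
    ℵ_ (a : Ordinal.{0}) < ℵ_ (b : Ordinal.{0}) := by
  rw [aleph_lt_aleph]
  exact_mod_cast h

theorem aleph_len {a b : ℕ} (h : a ≤ b) :
    ℵ_ (a : Ordinal.{0}) ≤ ℵ_ (b : Ordinal.{0}) := by
  rw [aleph_le_aleph]
  exact_mod_cast h

theorem not_cof {δ : K} {k : ℕ} (hS : S k δ) (C : Set K) (hC : #C < ℵ_ k) :
    ∃ b < δ, ∀ a ∈ C, a < δ → a ≤ b := by
  have h := hS.1 C hC
  unfold Cof at h
  push Not at h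
  obtain ⟨b, hb, h⟩ := h
  refine ⟨b, hb, fun a ha haδ => ?_⟩
  by_contra hcon
  push Not at hcon
  exact absurd haδ (not_lt.2 (h a ha hcon))

/-- the blocks -/
theorem blocks (m : ℕ) (ι : Type) (hι : #ι ≤ ℵ_ m) (σ : ι → K) (Y : ι → Set K)
    (hσ : ∀ i, S (m + 2) (σ i)) (hY : ∀ i, Cof (σ i) (Y i)) :
    ∃ s t : ι → K, (∀ i, t i < σ i ∧ ℵ_ ((m + 1 : ℕ) : Ordinal.{0}) ≤ #(Y i ∩ Ioc (s i) (t i) : Set K)) ∧
      ∀ i j, i ≠ j → t i ≤ s j ∨ t j ≤ s i := by
  classical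
  let r : ι → ι → Prop := WellOrderingRel
  have hr : WellFounded r := IsWellFounded.wf
  obtain ⟨g, hg⟩ := wrec (β := K × K) hr
    (fun i p => p.2 < σ i ∧ ℵ_ ((m + 1 : ℕ) : Ordinal.{0}) ≤ #(Y i ∩ Ioc p.1 p.2 : Set K))
    (fun i f p => (∀ j, σ j < σ i → σ j ≤ p.1) ∧ ∀ j (hj : r j i), σ j = σ i → (f j hj).2 ≤ p.1)
    (by
      intro i f hf
      -- the lower bound
      let C : Set K := range σ ∪ range (fun j : {j // r j i} => (f j.1 j.2).2)
      have hC : #C < ℵ_ ((m + 2 : ℕ) : Ordinal.{0}) := by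
        have h1 : #C ≤ ℵ_ (m : Ordinal.{0}) := by
          refine (mk_union_le _ _).trans ?_
          have h2 : #(range σ) ≤ ℵ_ (m : Ordinal.{0}) := mk_range_le.trans hι
          have h3 : #(range (fun j : {j // r j i} => (f j.1 j.2).2)) ≤ ℵ_ (m : Ordinal.{0}) :=
            mk_range_le.trans ((mk_subtype_le _).trans hι)
          refine (add_le_add h2 h3).trans (le_of_eq ?_)
          exact add_eq_self (aleph0_le_aleph _)
        exact h1.trans_lt (aleph_ltn (by omega))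
      obtain ⟨b, hb, hbC⟩ := not_cof (hσ i) C hC
      -- many points of `Y i` above `b`
      have hcof : Cof (σ i) (Y i ∩ Ioi b ∩ Iio (σ i)) := by
        intro c hc
        obtain ⟨a, haY, ha1, ha2⟩ := hY i (max b c) (max_lt hb hc)
        exact ⟨a, ⟨⟨haY, lt_of_le_of_lt (le_max_left _ _) ha1⟩, ha2⟩,
          lt_of_le_of_lt (le_max_right _ _) ha1, ha2⟩
      have hcard : ℵ_ ((m + 2 : ℕ) : Ordinal.{0}) ≤ #(Y i ∩ Ioi b ∩ Iio (σ i) : Set K) := by
        by_contra hcon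
        exact (hσ i).1 _ (not_le.1 hcon) hcof
      have hcard' : ℵ_ ((m + 1 : ℕ) : Ordinal.{0}) ≤ #(Y i ∩ Ioi b ∩ Iio (σ i) : Set K) :=
        (aleph_len (by omega)).trans hcard
      obtain ⟨C', hC'sub, hC'card⟩ := le_mk_iff_exists_subset.1 hcard'
      obtain ⟨b', hb', hb'C⟩ := not_cof (hσ i) C' (by rw [hC'card]; exact aleph_ltn (by omega))
      refine ⟨(b, b'), ⟨hb', ?_⟩, ?_, ?_⟩
      · rw [← hC'card]
        apply mk_le_mk_of_subset
        intro a ha
        have h1 := hC'sub ha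
        exact ⟨h1.1.1, h1.1.2, hb'C a ha h1.2⟩
      · intro j hj
        exact hbC _ (Or.inl ⟨j, rfl⟩) hj
      · intro j hj hjσ
        refine hbC _ (Or.inr ⟨⟨j, hj⟩, rfl⟩) ?_
        rw [← hjσ]
        exact (hf j hj).1)
  refine ⟨fun i => (g i).1, fun i => (g i).2, fun i => (hg i).1, fun i j hij => ?_⟩
  rcases lt_trichotomy (σ i) (σ j) with h | h | h
  · exact Or.inl ((hg i).1.1.le.trans ((hg j).2.1 i h))
  · rcases trichotomous_of r i j with h1 | h1 | h1
    · exact Or.inl ((hg j).2.2 i h1 h)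
    · exact absurd h1 hij
    · exact Or.inr ((hg i).2.2 j h1 h.symm)
  · exact Or.inr ((hg j).1.1.le.trans ((hg i).2.1 j h))

/-- few points in which a small set is cofinal -/
theorem few (m : ℕ) (ι : Type) (hι : #ι ≤ ℵ_ m) (s : ι → K) :
    #{δ : K | Cof δ (range s)} ≤ ℵ_ (m : Ordinal.{0}) := by
  classical
  have hmin : ∀ δ : K, (∃ i, δ < s i) → ∃ i, δ < s i ∧ ∀ j, δ < s j → s i ≤ s j := by
    rintro δ ⟨i₀, hi₀⟩
    have hne : (s '' {i | δ < s i}).Nonempty := ⟨s i₀, i₀, hi₀, rfl⟩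
    obtain ⟨a, ⟨i, hi, rfl⟩, hmin⟩ := (wellFounded_lt (α := K)).has_min _ hne
    exact ⟨i, hi, fun j hj => not_lt.1 (hmin (s j) ⟨j, hj, rfl⟩)⟩
  let φ : {δ : K | Cof δ (range s)} → Option ι := fun δ =>
    if h : ∃ i, (δ : K) < s i then some (Classical.choose (hmin δ h)) else none
  have key : ∀ δ δ' : {δ : K | Cof δ (range s)}, (δ : K) < δ' → φ δ ≠ φ δ' := by
    intro δ δ' hlt heq
    obtain ⟨a, ⟨i, rfl⟩, h1, h2⟩ := δ'.2 δ hlt
    have hex : ∃ i, (δ : K) < s i := ⟨i, h1⟩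
    have h3 := Classical.choose_spec (hmin δ hex)
    simp only [φ, dif_pos hex] at heq
    by_cases hex' : ∃ i, (δ' : K) < s i
    · have h4 := Classical.choose_spec (hmin δ' hex')
      rw [dif_pos hex'] at heq
      have h5 := Option.some.inj heq
      rw [← h5] at h4
      exact absurd (h4.1.trans_le (h3.2 i h1)) (not_lt.2 h2.le)
    · rw [dif_neg hex'] at heq
      exact Option.some_ne_none _ heq
  have hinj : Function.Injective φ := by
    intro δ δ' heq
    by_contra hne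
    have hne' : (δ : K) ≠ δ' := fun h => hne (Subtype.ext h)
    rcases lt_or_gt_of_ne hne' with h | h
    · exact key δ δ' h heq
    · exact key δ' δ h heq.symm
  refine (mk_le_of_injective hinj).trans ?_
  rw [mk_option]
  refine (add_le_add hι (one_le_aleph0.trans (aleph0_le_aleph (m : Ordinal.{0})))).trans (le_of_eq ?_)
  exact add_eq_self (aleph0_le_aleph _)

theorem t_CL : S_CL := by
  intro m ι hι σ Y A hσ hY hA
  classical
  obtain ⟨s, t, hst, hdis⟩ := blocks m ι hι σ Y hσ hY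
  let D : Set K := {δ : K | Cof δ (range s)}
  have hD : #D ≤ ℵ_ (m : Ordinal.{0}) := few m ι hι s
  let B : D × ℕ → Set K := fun p => if p.2 ≤ m ∧ S p.2 p.1 then A p.2 p.1 else ∅
  let Z : Set K := ⋃ p, B p
  have hZ : #Z ≤ ℵ_ (m : Ordinal.{0}) := by
    refine (mk_iUnion_le_sum_mk).trans ?_
    have h1 : ∀ p, #(B p) ≤ ℵ_ (m : Ordinal.{0}) := by
      intro p
      simp only [B]
      split_ifs with h
      · exact (hA _ _ h.2).trans (aleph_len h.1)
      · rw [mk_eq_zero]; exact zero_le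
    refine (sum_le_sum _ (fun _ => ℵ_ (m : Ordinal.{0})) h1).trans ?_
    rw [sum_const', mk_prod, mk_nat, lift_id, lift_aleph0]
    have h2 : #D * ℵ₀ ≤ ℵ_ (m : Ordinal.{0}) := by
      refine (mul_le_mul' hD (aleph0_le_aleph (m : Ordinal.{0}))).trans (le_of_eq ?_)
      exact mul_eq_self (aleph0_le_aleph _)
    refine (mul_le_mul' h2 le_rfl).trans (le_of_eq ?_)
    exact mul_eq_self (aleph0_le_aleph _)
  have hx : ∀ i, ∃ x ∈ Y i ∩ Ioc (s i) (t i), x ∉ Z := by
    intro i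
    by_contra hcon
    push Not at hcon
    have h1 : (Y i ∩ Ioc (s i) (t i)) ⊆ Z := fun x hx => hcon x hx
    have h2 := mk_le_mk_of_subset h1
    exact absurd ((hst i).2.trans (h2.trans hZ)) (not_le.2 (aleph_ltn (by omega)))
  choose x hxY hxZ using hx
  refine ⟨x, fun i => ⟨(hxY i).1, lt_of_le_of_lt (hxY i).2.2 (hst i).1⟩, ?_⟩
  intro k hk δ hδ hcof
  by_cases hkm : k ≤ m
  · by_cases hδD : δ ∈ D
    · -- empty intersection
      have hemp : range x ∩ A k δ = ∅ := by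
        rw [Set.eq_empty_iff_forall_notMem]
        rintro a ⟨⟨i, rfl⟩, ha⟩
        apply hxZ i
        refine Set.mem_iUnion.2 ⟨(⟨δ, hδD⟩, k), ?_⟩
        simp only [B]
        rw [if_pos ⟨hkm, hδ⟩]
        exact ha
      refine hδ.1 _ ?_ hcof
      rw [hemp, mk_eq_zero]
      exact aleph_pos _
    · apply hδD
      intro b hb
      obtain ⟨a, ⟨⟨i, rfl⟩, -⟩, h1, h2⟩ := hcof b hb
      obtain ⟨a', ⟨⟨j, rfl⟩, -⟩, h3, h4⟩ := hcof (x i) h2
      have hij : i ≠ j := by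
        rintro rfl
        exact lt_irrefl _ h3
      rcases hdis i j hij with h5 | h5
      · exact ⟨s j, ⟨j, rfl⟩, h1.trans_le ((hxY i).2.2.trans h5), (hxY j).2.1.trans h4⟩
      · exact absurd ((hxY j).2.2.trans (h5.trans (hxY i).2.1.le)) (not_le.2 h3)
  · refine hδ.1 _ ?_ hcof
    refine lt_of_le_of_lt (mk_le_mk_of_subset Set.inter_subset_left) ?_
    exact (mk_range_le.trans hι).trans_lt (aleph_ltn (by omega))

end Pool.Agent.V5helper3.FS
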